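import Pool.Agent.Q7.CE.Stm3
import Pool.Agent.Q285.CE.EDD
import Pool.Agent.Q286.EQ.MW

/-! Project CE (helper7), part 3, job FS2: independence over `ℤ_3`. -/

set_option autoImplicit false

namespace Pool.Agent.Q275.CE

open NumberField IsDedekindDomain WeierstrassCurve Pool.Agent.Q7.LK Pool.Agent.Q7.CE
open Pool.Agent.TH841.SH.D (Pt act)
open Pool.Agent.Q285.CE (IsD isD_base)

section

variable {F : Type} [Field F] [NumberField F] {D : F}

theorem coe_alg (v : HeightOneSpectrum (𝓞 F)) (a : F) :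
    (a : v.adicCompletion F) = algebraMap F (v.adicCompletion F) a := by
  rw [HeightOneSpectrum.algebraMap_adicCompletion]
  rfl

omit [NumberField F] in
theorem isD_self (D : F) : IsD ((ED D).baseChange F) D := isD_base D F

/-- the group of the points is finitely generated -/
theorem fin_gen (hD : D ≠ 0) : Module.Finite ℤ (Pt (ED D) F) := by
  have hΔ : ((ED D).baseChange F).Δ ≠ 0 := by
    have e : ((ED D).baseChange F).Δ = -27 * D ^ 4 := by
      show -(_ : F) ^ 2 * _ - 8 * _ ^ 3 - 27 * _ ^ 2 + 9 * _ * _ * _ = _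
      have e2 : ((ED D).baseChange F).b₂ = 0 := by
        show (0 : F) ^ 2 + 4 * 0 = 0
        ring
      have e4 : ((ED D).baseChange F).b₄ = 0 := by
        show 2 * (0 : F) + 0 * D = 0
        ring
      have e6 : ((ED D).baseChange F).b₆ = D ^ 2 := by
        show D ^ 2 + 4 * (0 : F) = D ^ 2
        ring
      rw [e2, e4, e6]
      ring
    rw [e]
    exact mul_ne_zero (by norm_num) (pow_ne_zero 4 hD)
  have hfg : AddGroup.FG (Pt (ED D) F) :=
    @Pool.Agent.Q286.EQ.mordell_weil F _ _ (Classical.decEq F) ((ED D).baseChange F) hΔ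
  exact Module.Finite.iff_addGroup_fg.2 hfg

/-- the point `(0, -D)` is killed by three -/
theorem tors3 (hD : D ≠ 0) : ∃ T : Pt (ED D) F, (∃ h, T = Affine.Point.some 0 (-D) h) ∧ (3 : ℕ) • T = 0 := by
  have hV := isD_self D
  have hT : ((ED D).baseChange F).toAffine.Nonsingular 0 (-D) := hV.nons hD (by ring)
  obtain ⟨T, hTd⟩ : ∃ T : Pt (ED D) F, T = Affine.Point.some 0 (-D) hT := ⟨_, rfl⟩
  refine ⟨T, ⟨hT, hTd⟩, ?_⟩
  obtain ⟨ℓ, X, Y, h, e, hX, hY, hℓ⟩ := @IsD.add_ex F _ (Classical.decEq F) _ D hV 0 (-D) 0 (-D) hT hT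
    (by
      rintro ⟨-, h⟩
      apply hD
      linear_combination -h)
  have hℓ0 : ℓ = 0 := by
    rcases hℓ with ⟨h0, -⟩ | ⟨-, -, -, h1⟩
    · exact absurd rfl h0
    · have h2 : ℓ * D = 0 := by linear_combination -h1
      exact (mul_eq_zero.1 h2).resolve_right hD
  have hX0 : X = 0 := by rw [hX, hℓ0]; ring
  have hY0 : Y = 0 := by rw [hY, hℓ0]; ring
  subst hX0 hY0
  have e2 := @IsD.add_opp F _ (Classical.decEq F) _ D hV 0 0 0 (-D) h hT ⟨rfl, by ring⟩
  obtain ⟨T2, hT2⟩ : ∃ T2 : Pt (ED D) F, T2 = Affine.Point.some 0 0 h := ⟨_, rfl⟩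
  have e4 : T + T = T2 := by
    rw [hTd, hT2]
    exact e
  have e5 : T2 + T = 0 := by
    rw [hTd, hT2]
    exact e2
  rw [succ_nsmul, two_nsmul, e4, e5]

/-- a class of a point is locally solvable -/
theorem ae_of_cls {a : F} {Q : Pt (ED D) F} (h : Cls D F Q a) (v : HeightOneSpectrum (𝓞 F)) : AE v D a := by
  obtain ⟨ha, h⟩ := h
  have key : ∃ u w s : F, (u ≠ 0 ∨ w ≠ 0 ∨ s ≠ 0) ∧ w ^ 3 = a ^ 2 * u ^ 3 + a * D * s ^ 3 := by
    rcases h with ⟨_, s, hs⟩ | ⟨_, s, hs⟩ | ⟨x, y, h, s, _, hy, hs, he⟩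
    · exact ⟨1, s ^ 2, 0, Or.inl one_ne_zero, by rw [hs]; ring⟩
    · have hs' : a * D = s ^ 3 := hs
      exact ⟨0, s, 1, Or.inr (Or.inr one_ne_zero), by rw [hs']; ring⟩
    · have hxy := ((isD_self D).eqn x y).1 h.1
      refine ⟨1 / s ^ 2, x, 1 / s, Or.inr (Or.inr (one_div_ne_zero hs)), ?_⟩
      rw [← hxy, he]
      field_simp
  obtain ⟨u, w, s, hne, he⟩ := key
  refine ⟨ha, algebraMap F _ u, algebraMap F _ w, algebraMap F _ s, ?_, ?_⟩
  · rcases hne with h | h | h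
    · exact Or.inl ((map_ne_zero _).2 h)
    · exact Or.inr (Or.inl ((map_ne_zero _).2 h))
    · exact Or.inr (Or.inr ((map_ne_zero _).2 h))
  · rw [coe_alg, coe_alg, ← map_pow, he]
    simp only [map_add, map_mul, map_pow]

end

theorem fs2 : S_FEND → S_FS1 → S_ECOND → S_FS2 := by
  intro hFEND hFS1 hECOND F _ _ ω D hω hD S hS hbad r P hP a ha
  by_contra hne
  obtain ⟨θ, θ', h3, hnat, -, hcls, hact⟩ := hFEND F ω D hω hD
  obtain ⟨Q, hQ, hloc⟩ := hFS1 (Pt (ED D) F) (fin_gen hD) (θ F) (θ' F) (fun x => h3 F x) S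
    (fun v => Pt (ED D) (v.1.adicCompletion F)) (fun v => θ (v.1.adicCompletion F))
    (fun v => θ' (v.1.adicCompletion F)) (fun v => act (ED D) (Algebra.ofId F (v.1.adicCompletion F)))
    (fun v x => hnat F _ _ x) (fun v x => (h3 _ x).2.1) r P hP a hne (fun v n => ha v.1 v.2 n)
  obtain ⟨a0, ha0⟩ := (hcls F Q).1
  have hne0 : a0 ≠ 0 := ha0.1
  have hAE : ∀ v, AE v D a0 := ae_of_cls ha0
  have hC := hECOND F D a0 hD hAE
  have hC' : Cond 3 (AS S) D a0 := by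
    refine ⟨hC.ne, hC.unr, hC.ram, fun v hv => ⟨fun hvS => ⟨hne0, ?_⟩, fun _ => hAE v⟩⟩
    obtain ⟨x, τ, hτ, he⟩ := hloc ⟨v, hvS⟩
    have c1 := hact F _ (Algebra.ofId F (v.adicCompletion F)) Q a0 ha0
    have he' : act (ED D) (Algebra.ofId F (v.adicCompletion F)) Q = θ (v.adicCompletion F) x + τ := he
    rw [he'] at c1
    obtain ⟨b, hb⟩ := (hcls (v.adicCompletion F) τ).1
    have c2 : Cls D (v.adicCompletion F) (θ (v.adicCompletion F) x) (1 ^ 3) :=
      ((hcls (v.adicCompletion F) (θ (v.adicCompletion F) x)).2.2.2.2 1 one_ne_zero).2 ⟨x, rfl⟩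
    have c3 := (hcls (v.adicCompletion F) (θ (v.adicCompletion F) x)).2.2.2.1 τ (1 ^ 3) b c2 hb
    obtain ⟨s, hs, e⟩ := (hcls (v.adicCompletion F) _).2.2.1 _ _ c3 c1
    have c4 := (hcls (v.adicCompletion F) τ).2.1 b s hb hs
    refine ⟨τ, hτ, ?_⟩
    have e2 : (a0 : v.adicCompletion F) = b * s ^ 3 := by
      rw [coe_alg]
      have e3 : algebraMap F (v.adicCompletion F) a0 = 1 ^ 3 * b * s ^ 3 := e
      rw [e3, one_pow, one_mul]
    rw [e2]
    exact c4
  refine hbad ⟨a0, hC', ?_⟩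
  rintro j ⟨x, hx⟩
  obtain ⟨T, ⟨hT, hTd⟩, hT3⟩ := tors3 hD
  have cT : Cls D F T D := by
    refine ⟨hD, Or.inr (Or.inr ⟨0, -D, hT, -1, hTd, neg_ne_zero.2 hD, by norm_num, by ring⟩)⟩
  have cj : ∀ n : ℕ, Cls D F (Q + n • T) (a0 * D ^ n) := by
    intro n
    induction n with
    | zero => rw [zero_smul, add_zero, pow_zero, mul_one]; exact ha0
    | succ n ih =>
      have h1 := (hcls F (Q + n • T)).2.2.2.1 T _ _ ih cT
      rw [succ_nsmul, ← add_assoc, pow_succ, ← mul_assoc]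
      exact h1
  have hx0 : x ≠ 0 := by
    rintro rfl
    rw [zero_pow (by norm_num)] at hx
    exact mul_ne_zero hne0 (pow_ne_zero j hD) hx
  have cx := cj j
  rw [hx] at cx
  obtain ⟨R, hR⟩ := ((hcls F (Q + j • T)).2.2.2.2 x hx0).1 cx
  have htor : IsOfFinAddOrder T := isOfFinAddOrder_iff_nsmul_eq_zero.2 ⟨3, by norm_num, hT3⟩
  have htor2 : IsOfFinAddOrder (-(j • T)) := (htor.nsmul).neg
  refine hQ R (-(j • T)) htor2 ?_
  rw [← hR]
  abel

end Pool.Agent.Q275.CE
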